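import Mathlib
import Pool.Agent.Lib.MP_540347_an.Harm

set_option autoImplicit false

namespace Pool.Agent.Results.MP_540347_an.HarmonicMeasure

open MeasureTheory Set Metric Filter Topology Pool.Agent.Lib.MP_540347_an
open scoped ENNReal

/-- `w` is continuous and subharmonic on `D`: sub-mean-value inequality on all closed discs in `D`. -/
def Subharmonic (w : ℂ → ℝ) (D : Set ℂ) : Prop :=
  ContinuousOn w D ∧ ∀ z r, 0 < r → closedBall z r ⊆ D → w z ≤ Real.circleAverage w z r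

/-- The Perron solution at `x` of the Dirichlet problem on `D` with boundary values `f`. -/
noncomputable def perron (D : Set ℂ) (f : ℂ → ℝ) (x : ℂ) : ℝ :=
  sSup {y | ∃ w, Subharmonic w D ∧
    (∀ ξ ∈ frontier D, ∀ ε > 0, ∀ᶠ z in 𝓝[D] ξ, w z ≤ f ξ + ε) ∧ y = w x}

/-- `μ` is the harmonic measure of `D` at `x`. -/
def IsHarmonicMeasure (D : Set ℂ) (x : ℂ) (μ : Measure ℂ) : Prop :=
  IsProbabilityMeasure μ ∧ μ (frontier D)ᶜ = 0 ∧
    ∀ f : ℂ → ℝ, Continuous f → ∫ z, f z ∂μ = perron D f x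

/-- The norm of the problem: supremum over bounded domains `D₀` with `x ∈ D₀` and closure in `D`. -/
noncomputable def hnorm {H : Type} [NormedAddCommGroup H] (p : ℝ) (D : Set ℂ) (x : ℂ) (u : ℂ → H) :
    ℝ≥0∞ :=
  ⨆ (D₀ : Set ℂ) (μ : Measure ℂ) (_ : IsOpen D₀ ∧ IsConnected D₀ ∧ Bornology.IsBounded D₀ ∧
    x ∈ D₀ ∧ closure D₀ ⊆ D ∧ IsHarmonicMeasure D₀ x μ), (∫⁻ z, ‖u z‖ₑ ^ p ∂μ) ^ (1 / p)

lemma mean_re {A : ℂ → ℂ} (hA : Differentiable ℂ A) (z : ℂ) (r : ℝ) :
    Real.circleAverage (fun z => (A z).re) z r = (A z).re :=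
  InnerProductSpace.HarmonicOnNhd.circleAverage_eq fun z _ => (hA.analyticAt z).harmonicAt_re

lemma max_principle {D : Set ℂ} (hD : IsOpen D) (hb : Bornology.IsBounded D) {f w : ℂ → ℝ}
    {A : ℂ → ℂ} (hA : Differentiable ℂ A) (hw : Subharmonic w D)
    (hw' : ∀ ξ ∈ frontier D, ∀ ε > 0, ∀ᶠ z in 𝓝[D] ξ, w z ≤ f ξ + ε)
    (hf : ∀ ξ ∈ frontier D, f ξ ≤ (A ξ).re) {x : ℂ} (hx : x ∈ D) : w x ≤ (A x).re := by
  by_contra h0
  have hAc : Continuous fun z => (A z).re := Complex.continuous_re.comp hA.continuous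
  let s : ℂ → ℝ := fun z => w z - (A z).re
  have hs : ContinuousOn s D := hw.1.sub hAc.continuousOn
  have hx0 : 0 < s x := sub_pos.2 (not_le.1 h0)
  let K := {z | z ∈ D ∧ s x ≤ s z}
  have hKD : K ⊆ D := fun z hz => hz.1
  have hK : IsCompact K := by
    refine isCompact_of_isClosed_isBounded (isClosed_of_closure_subset fun ξ hξ => ?_)
      (hb.subset hKD)
    have := mem_closure_iff_nhdsWithin_neBot.1 hξ
    by_cases hξD : ξ ∈ D
    · exact ⟨hξD, ge_of_tendsto ((hs ξ hξD).mono hKD)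
        (eventually_nhdsWithin_of_forall fun z hz => hz.2)⟩
    · have h1 : ξ ∈ frontier D := ⟨closure_mono hKD hξ, by rwa [hD.interior_eq]⟩
      have h2 : ∀ᶠ z in 𝓝[K] ξ, (A ξ).re - s x / 3 < (A z).re :=
        nhdsWithin_le_nhds (hAc.continuousAt.eventually (lt_mem_nhds (by linarith)))
      obtain ⟨z, ⟨h3, h4⟩, h5⟩ := ((((hw' ξ h1 (s x / 3) (by linarith)).filter_mono
        (nhdsWithin_mono _ hKD)).and h2).and self_mem_nhdsWithin).exists
      have h6 : s x ≤ w z - (A z).re := h5.2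
      linarith [hf ξ h1]
  obtain ⟨z₁, hz₁, hM⟩ := hK.exists_isMaxOn ⟨x, hx, le_rfl⟩ (hs.mono hKD)
  have hM' : ∀ z ∈ D, s z ≤ s z₁ := fun z hz =>
    (le_total (s x) (s z)).elim (fun h => hM ⟨hz, h⟩) fun h => h.trans hz₁.2
  have hK' : IsCompact (K ∩ s ⁻¹' {s z₁}) := hK.of_isClosed_subset
    ((hs.mono hKD).preimage_isClosed_of_isClosed hK.isClosed isClosed_singleton) inter_subset_left
  obtain ⟨z₀, ⟨hz₀, e₀⟩, hR⟩ := hK'.exists_isMaxOn ⟨z₁, hz₁, rfl⟩ Complex.continuous_re.continuousOn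
  obtain ⟨r, hr, hrD⟩ := nhds_basis_closedBall.mem_iff.1 (hD.mem_nhds hz₀.1)
  have hc : ∀ θ, circleMap z₀ r θ ∈ D := fun θ => hrD (circleMap_mem_closedBall _ hr.le θ)
  have h1 : s (circleMap z₀ r 0) < s z₁ := lt_of_le_of_ne (hM' _ (hc 0)) fun h => by
    have : (circleMap z₀ r 0).re ≤ z₀.re := hR ⟨⟨hc 0, h ▸ hz₁.2⟩, h⟩
    simp [circleMap] at this
    linarith
  have h2 := intervalIntegral.integral_lt_integral_of_continuousOn_of_le_of_exists_lt
    (f := fun θ => s (circleMap z₀ r θ)) (g := fun _ => s z₁) Real.two_pi_pos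
    (hs.comp (continuous_circleMap _ _).continuousOn fun θ _ => hc θ) continuousOn_const
    (fun θ _ => hM' _ (hc θ)) ⟨0, ⟨le_rfl, Real.two_pi_pos.le⟩, h1⟩
  have h3 : Real.circleAverage s z₀ r < s z₁ := by
    rw [Real.circleAverage_def, smul_eq_mul, inv_mul_lt_iff₀ Real.two_pi_pos]
    simpa using h2
  have h4 : Real.circleAverage s z₀ r = Real.circleAverage w z₀ r - (A z₀).re := by
    rw [← mean_re hA z₀ r]
    exact Real.circleAverage_fun_sub ((hw.1.mono ((sphere_subset_closedBall.trans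
      (by rwa [abs_of_pos hr])))).circleIntegrable') hAc.continuousOn.circleIntegrable'
  have h5 := hw.2 z₀ r hr hrD
  have h6 : w z₀ - (A z₀).re = s z₁ := e₀
  linarith

lemma perron_ball {r : ℝ} (hr : 0 < r) {f : ℂ → ℝ} (hf : Continuous f) :
    perron (ball 0 r) f 0 = Real.circleAverage f 0 r := by
  have key : ∀ η > 0, ∃ A : ℂ → ℂ, Differentiable ℂ A ∧
      (∀ ξ ∈ frontier (ball (0 : ℂ) r), |f ξ - (A ξ).re| ≤ η) ∧
      |Real.circleAverage f 0 r - (A 0).re| ≤ η := by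
    intro η hη
    obtain ⟨A, hA, -, h⟩ := approx (fun z => f (r * z + 0)) (by fun_prop) hη
    have hAc := hA.continuous
    have hr' : (r : ℂ) ≠ 0 := by exact_mod_cast hr.ne'
    refine ⟨fun z => A (z / r), by fun_prop, fun ξ hξ => ?_, ?_⟩
    · rw [frontier_ball _ hr.ne', mem_sphere_zero_iff_norm] at hξ
      have := h (ξ / r) (by simp [hξ, abs_of_pos hr, hr.ne'])
      rwa [mul_div_cancel₀ _ hr', add_zero] at this
    · beta_reduce
      rw [Real.circleAverage_eq_circleAverage_zero_one, zero_div, ← av_re_entire hA]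
      have h1 := av_mono (φ := fun z => f (r * z + 0)) (ψ := fun z => (A z).re + η) (by fun_prop)
        (by fun_prop) fun z hz => by linarith [(abs_le.1 (h z hz)).2]
      have h2 := av_mono (φ := fun z => (A z).re) (ψ := fun z => f (r * z + 0) + η) (by fun_prop)
        (by fun_prop) fun z hz => by linarith [(abs_le.1 (h z hz)).1]
      rw [av_add (by fun_prop) continuous_const, av_const] at h1 h2
      exact abs_le.2 ⟨by unfold av at h1 h2 ⊢; linarith, by unfold av at h1 h2 ⊢; linarith⟩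
  have hup : ∀ y ∈ {y | ∃ w, Subharmonic w (ball 0 r) ∧ (∀ ξ ∈ frontier (ball (0 : ℂ) r), ∀ ε > 0,
      ∀ᶠ z in 𝓝[ball 0 r] ξ, w z ≤ f ξ + ε) ∧ y = w 0}, y ≤ Real.circleAverage f 0 r := by
    rintro _ ⟨w, h1, h2, rfl⟩
    refine le_of_forall_pos_le_add fun η hη => ?_
    obtain ⟨A, hA, h3, h4⟩ := key (η / 2) (half_pos hη)
    have := max_principle isOpen_ball isBounded_ball (A := fun z => A z + (η / 2 : ℝ))
      (by fun_prop) h1 h2 (fun ξ hξ => by
        simp only [Complex.add_re, Complex.ofReal_re]; linarith [(abs_le.1 (h3 ξ hξ)).2])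
      (mem_ball_self hr)
    simp only [Complex.add_re, Complex.ofReal_re] at this
    linarith [(abs_le.1 h4).1]
  have hlo : ∀ η > 0, ∃ y ∈ {y | ∃ w, Subharmonic w (ball 0 r) ∧ (∀ ξ ∈ frontier (ball (0 : ℂ) r),
      ∀ ε > 0, ∀ᶠ z in 𝓝[ball 0 r] ξ, w z ≤ f ξ + ε) ∧ y = w 0},
      Real.circleAverage f 0 r ≤ y + η := by
    intro η hη
    obtain ⟨A, hA, h3, h4⟩ := key (η / 2) (half_pos hη)
    have hB : Differentiable ℂ fun z => A z - (η / 2 : ℝ) := by fun_prop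
    have hBc : Continuous fun z => (A z - (η / 2 : ℝ)).re := Complex.continuous_re.comp hB.continuous
    refine ⟨_, ⟨fun z => (A z - (η / 2 : ℝ)).re, ⟨hBc.continuousOn,
      fun z ρ _ _ => (mean_re hB z ρ).ge⟩, fun ξ hξ ε hε => nhdsWithin_le_nhds
        ((hBc.continuousAt.eventually (gt_mem_nhds ?_)).mono fun z hz => hz.le), rfl⟩, ?_⟩ <;>
      simp only [Complex.sub_re, Complex.ofReal_re]
    · linarith [(abs_le.1 (h3 ξ hξ)).1]
    · linarith [(abs_le.1 h4).2]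
  obtain ⟨y₀, hy₀, -⟩ := hlo 1 one_pos
  refine le_antisymm (csSup_le ⟨y₀, hy₀⟩ hup) (le_of_forall_pos_le_add fun η hη => ?_)
  obtain ⟨y, hy, h⟩ := hlo η hη
  exact h.trans (add_le_add_left (le_csSup ⟨_, hup⟩ hy) _)

lemma exists_measure {r : ℝ} (hr : 0 < r) : ∃ μ, IsHarmonicMeasure (ball 0 r) 0 μ := by
  have hm := (continuous_circleMap 0 r).measurable
  have h0 : ENNReal.ofReal (2 * Real.pi) ≠ 0 := by simpa using Real.pi_pos
  refine ⟨((ENNReal.ofReal (2 * Real.pi))⁻¹ • volume.restrict (Ioc 0 (2 * Real.pi))).map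
    (circleMap 0 r), ⟨?_⟩, ?_, fun f hf => ?_⟩
  · rw [Measure.map_apply hm MeasurableSet.univ, preimage_univ, Measure.smul_apply,
      Measure.restrict_apply_univ, Real.volume_Ioc, sub_zero, smul_eq_mul,
      ENNReal.inv_mul_cancel h0 ENNReal.ofReal_ne_top]
  · rw [Measure.map_apply hm isClosed_frontier.measurableSet.compl, frontier_ball _ hr.ne']
    rw [eq_empty_of_forall_notMem (s := circleMap 0 r ⁻¹' (sphere 0 r)ᶜ)
      fun θ h => h (circleMap_mem_sphere _ hr.le θ), measure_empty]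
  · rw [integral_map hm.aemeasurable hf.aestronglyMeasurable, integral_smul_measure,
      perron_ball hr hf, Real.circleAverage_def, intervalIntegral.integral_of_le Real.two_pi_pos.le,
      ENNReal.toReal_inv, ENNReal.toReal_ofReal Real.two_pi_pos.le]

lemma lint_eq {H : Type} [NormedAddCommGroup H] {u : ℂ → H} (hu : Continuous u) {p : ℝ} (hp : 0 < p)
    {D : Set ℂ} (hD : closure D ⊆ ball 0 1) {μ : Measure ℂ} (h : IsHarmonicMeasure D 0 μ) :
    ∫⁻ z, ‖u z‖ₑ ^ p ∂μ = ENNReal.ofReal (perron D (fun z => ‖u z‖ ^ p) 0) := by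
  have := Real.continuous_rpow_const hp.le
  have hc : Continuous fun z => ‖u z‖ ^ p := by fun_prop
  have := h.1
  obtain ⟨K, -, hK⟩ := exists_bound_ball hc
  rw [← h.2.2 _ hc, ofReal_integral_eq_lintegral_ofReal (Integrable.of_bound
    hc.aestronglyMeasurable K (Eventually.mono (show ∀ᵐ z ∂μ, z ∈ frontier D from h.2.1)
      fun z hz => hK z (mem_ball_zero_iff.1 (hD hz.1)).le)) (Eventually.of_forall fun z => by positivity)]
  simp only [← ofReal_norm, ENNReal.ofReal_rpow_of_nonneg (norm_nonneg _) hp.le]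

lemma grad {k : ℕ} {U : Fin k → ℂ → ℂ} (hU : ∀ i, Differentiable ℂ (U i)) (z : ℂ) :
    ‖fderiv ℝ (vecC U) z 1‖ ^ 2 + ‖fderiv ℝ (vecC U) z Complex.I‖ ^ 2
      = ∑ j, ‖deriv (U j) z‖ ^ 2 := by
  have h1 : HasDerivAt (fun z i => U i z) (fun i => deriv (U i) z) z :=
    hasDerivAt_pi.2 (fun i => (hU i _).hasDerivAt)
  have h3 : fderiv ℝ (vecC U) z = _ :=
    ((reV k).hasFDerivAt.comp z (h1.hasFDerivAt.restrictScalars ℝ)).fderiv
  rw [h3]
  simp only [EuclideanSpace.real_norm_sq_eq, ← Finset.sum_add_distrib]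
  refine Finset.sum_congr rfl (fun j _ => ?_)
  rw [Complex.sq_norm, Complex.normSq_apply]
  simp
  ring

lemma add_rpow_le {p t x θ : ℝ} (hp : 0 ≤ p) (ht : 0 < t) (hx : 0 ≤ x) (hθ : 0 ≤ θ) :
    (x + θ) ^ p ≤ ((1 + t) * x) ^ p + ((1 + 1 / t) * θ) ^ p := by
  have h1 : 0 ≤ ((1 + t) * x) ^ p := by positivity
  have h2 : 0 ≤ ((1 + 1 / t) * θ) ^ p := by positivity
  rcases le_total θ (t * x) with h | h
  · have : (x + θ) ^ p ≤ ((1 + t) * x) ^ p :=
      Real.rpow_le_rpow (by positivity) (by linarith) hp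
    linarith
  · have h3 : x ≤ 1 / t * θ := by
      rw [one_div, inv_mul_eq_div, le_div_iff₀ ht]; linarith
    have : (x + θ) ^ p ≤ ((1 + 1 / t) * θ) ^ p :=
      Real.rpow_le_rpow (by positivity) (by linarith) hp
    linarith

lemma core {p : ℝ} (hp : 1 < p) {c : ℝ} (hc0 : 0 ≤ c) (hc : c < max p (p / (p - 1)) - 1) :
    ∃ (k : ℕ) (U W : Fin k → ℂ → ℂ), (∀ i, Differentiable ℂ (U i)) ∧ (∀ i, Differentiable ℂ (W i)) ∧
      (∀ z : ℂ, ‖z‖ ≤ 1 → ∑ j, ‖deriv (W j) z‖ ^ 2 ≤ ∑ j, ‖deriv (U j) z‖ ^ 2) ∧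
      ‖vecC W 0‖ ≤ ‖vecC U 0‖ ∧
      c ^ p * av (fun z => ‖vecC U z‖ ^ p) < av (fun z => ‖vecC W z‖ ^ p) := by
  have hp0 : 0 < p := by linarith
  obtain ⟨c₁, hc₁, hc₂⟩ := exists_between hc
  have hc₁0 : 0 < c₁ := lt_of_le_of_lt hc0 hc₁
  obtain ⟨t, ht0, ht⟩ : ∃ t : ℝ, 0 < t ∧ c * (1 + t) ^ 2 ≤ c₁ := by
    have hcont : Continuous (fun t : ℝ => c * (1 + t) ^ 2) := by fun_prop
    have h0 : c * (1 + (0 : ℝ)) ^ 2 < c₁ := by simpa using hc₁
    have h1 : ∀ᶠ t : ℝ in nhdsWithin 0 (Set.Ioi 0), c * (1 + t) ^ 2 < c₁ :=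
      nhdsWithin_le_nhds (hcont.continuousAt.eventually (gt_mem_nhds h0))
    obtain ⟨t, h3, h4⟩ := (h1.and self_mem_nhdsWithin).exists
    exact ⟨t, h4, h3.le⟩
  have hlam : 1 < (1 + t) ^ 2 := by nlinarith
  obtain ⟨β, hβ0, hβ⟩ := exists_adm hlam hp hc₁0 hc₂
  set κ : ℝ := 1 / (1 + t) with hκ
  have hκ0 : 0 < κ := by positivity
  have hκ1 : κ ≤ 1 := by rw [hκ, div_le_one (by linarith)]; linarith
  have hκp : 0 < κ ^ p := by positivity
  obtain ⟨θ, hθ0, hθ⟩ : ∃ θ : ℝ, 0 < θ ∧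
      c ^ p * (((1 + 1 / t) * θ) ^ p + 2 * θ) ≤ κ ^ p * β / 2 := by
    have := Real.continuous_rpow_const hp0.le
    have hcont : Continuous (fun θ : ℝ => c ^ p * (((1 + 1 / t) * θ) ^ p + 2 * θ)) := by fun_prop
    have h0 : c ^ p * (((1 + 1 / t) * (0 : ℝ)) ^ p + 2 * 0) < κ ^ p * β / 2 := by
      rw [mul_zero, Real.zero_rpow hp0.ne']
      simp only [mul_zero, add_zero]
      positivity
    have h1 : ∀ᶠ θ : ℝ in nhdsWithin 0 (Set.Ioi 0),
        c ^ p * (((1 + 1 / t) * θ) ^ p + 2 * θ) < κ ^ p * β / 2 :=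
      nhdsWithin_le_nhds (hcont.continuousAt.eventually (gt_mem_nhds h0))
    obtain ⟨θ, h3, h4⟩ := (h1.and self_mem_nhdsWithin).exists
    exact ⟨θ, h4, h3.le⟩
  obtain ⟨F, G, ⟨hF, hG, m, a, M, hσ, hsub⟩, h0, hav⟩ := hβ (θ ^ 2) (by positivity)
  let U : Fin (m + 1) → ℂ → ℂ := Fin.cons F (fun j z => (a j : ℂ) * z ^ (M j + 1))
  let W : Fin (m + 1) → ℂ → ℂ := Fin.cons (fun z => (κ : ℂ) * G z) (fun _ _ => 0)
  have hU : ∀ i, Differentiable ℂ (U i) := by
    intro i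
    refine Fin.cases ?_ (fun j => ?_) i
    · exact hF
    · simp only [U, Fin.cons_succ]; fun_prop
  have hW : ∀ i, Differentiable ℂ (W i) := by
    intro i
    refine Fin.cases ?_ (fun j => ?_) i
    · simp only [W, Fin.cons_zero]; fun_prop
    · simp only [W, Fin.cons_succ]; fun_prop
  have hWn : ∀ z, ‖vecC W z‖ = κ * |(G z).re| := by
    intro z
    have := vecC_norm_sq W z
    simp only [Fin.sum_univ_succ, W, Fin.cons_zero, Fin.cons_succ, Complex.re_ofReal_mul,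
      Complex.zero_re] at this
    refine (pow_left_inj₀ (norm_nonneg _) (by positivity) two_ne_zero).1 ?_
    rw [this, mul_pow, mul_pow, sq_abs]
    simp
  have hUl : ∀ z, |(F z).re| ≤ ‖vecC U z‖ := by
    intro z
    have := vecC_norm_sq U z
    simp only [Fin.sum_univ_succ, U, Fin.cons_zero, Fin.cons_succ] at this
    refine (pow_le_pow_iff_left₀ (abs_nonneg _) (norm_nonneg _) two_ne_zero).1 ?_
    rw [this, sq_abs]
    exact le_add_of_nonneg_right (Finset.sum_nonneg (fun j _ => sq_nonneg _))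
  have hUu : ∀ z : ℂ, ‖z‖ = 1 → ‖vecC U z‖ ≤ |(F z).re| + θ := by
    intro z hz
    have := vecC_norm_sq U z
    simp only [Fin.sum_univ_succ, U, Fin.cons_zero, Fin.cons_succ] at this
    refine (pow_le_pow_iff_left₀ (norm_nonneg _) (by positivity) two_ne_zero).1 ?_
    have h1 : ∑ j : Fin m, ((a j : ℂ) * z ^ (M j + 1)).re ^ 2 ≤ ∑ j, a j ^ 2 := by
      refine Finset.sum_le_sum (fun j _ => ?_)
      have h2 := Complex.abs_re_le_norm ((a j : ℂ) * z ^ (M j + 1))
      rw [norm_mul, norm_pow, hz, one_pow, mul_one, Complex.norm_real, Real.norm_eq_abs] at h2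
      exact sq_le_sq.2 h2
    rw [this, add_sq, sq_abs]
    have : 0 ≤ 2 * |(F z).re| * θ := by positivity
    linarith
  have hrp := Real.continuous_rpow_const hp0.le
  have hUc := vecC_cont hU
  have hWc := vecC_cont hW
  have hFc := hF.continuous
  have hGc := hG.continuous
  refine ⟨m + 1, U, W, hU, hW, fun z hz => ?_, ?_, ?_⟩
  · have h1 := hsub z hz
    simp only [Fin.sum_univ_succ, U, W, Fin.cons_zero, Fin.cons_succ]
    have d1 : deriv (fun z => (κ : ℂ) * G z) z = κ * deriv G z :=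
      ((hG z).hasDerivAt.const_mul _).deriv
    have d2 : ∀ j, ‖deriv (fun z => (a j : ℂ) * z ^ (M j + 1)) z‖ ^ 2
        = (a j * (M j + 1) * ‖z‖ ^ (M j)) ^ 2 := by
      intro j
      rw [((hasDerivAt_pow (M j + 1) z).const_mul (a j : ℂ)).deriv]
      simp only [norm_mul, Complex.norm_real, Real.norm_eq_abs, mul_pow, sq_abs, norm_pow,
        Complex.norm_natCast, Nat.add_sub_cancel]
      push_cast
      ring
    simp only [d1, d2, deriv_const', norm_zero, norm_mul, Complex.norm_real, Real.norm_eq_abs,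
      mul_pow, sq_abs] at h1 ⊢
    have hS : 0 ≤ ∑ j, a j ^ 2 * ((M j : ℝ) + 1) ^ 2 * (‖z‖ ^ (M j)) ^ 2 :=
      Finset.sum_nonneg (fun j _ => by positivity)
    set S := ∑ j, a j ^ 2 * ((M j : ℝ) + 1) ^ 2 * (‖z‖ ^ (M j)) ^ 2
    have h2 : κ ^ 2 * (1 + t) ^ 2 = 1 := by rw [hκ]; field_simp
    have h3 : κ ^ 2 ≤ 1 := pow_le_one₀ hκ0.le hκ1
    have h4 := mul_le_mul_of_nonneg_left h1 (sq_nonneg κ)
    have h5 : κ ^ 2 * S ≤ 1 * S := mul_le_mul_of_nonneg_right h3 hS
    rw [mul_add, ← mul_assoc, h2] at h4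
    simp only [ne_eq, OfNat.ofNat_ne_zero, not_false_eq_true, zero_pow, Finset.sum_const_zero,
      add_zero]
    linarith
  · rw [hWn]
    have := hUl 0
    have h1 : κ * |(G 0).re| ≤ 1 * |(G 0).re| := mul_le_mul_of_nonneg_right hκ1 (abs_nonneg _)
    linarith
  · have hVc := V_cont c₁ hp0
    have hcp : 0 ≤ c ^ p := by positivity
    have key : av (fun z => c ^ p * ‖vecC U z‖ ^ p + κ ^ p * V p c₁ ((F z).re, (G z).re))
        ≤ av (fun z => ‖vecC W z‖ ^ p + c ^ p * (((1 + 1 / t) * θ) ^ p + 2 * θ)) := by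
      refine av_mono (by fun_prop) (by fun_prop) (fun z hz => ?_)
      have e2 : ‖vecC U z‖ ^ p ≤ (|(F z).re| + θ) ^ p :=
        Real.rpow_le_rpow (norm_nonneg _) (hUu z hz) hp0.le
      have e3 := add_rpow_le hp0.le ht0 (abs_nonneg (F z).re) hθ0.le
      have e4 : c ^ p * ((1 + t) * |(F z).re|) ^ p ≤ κ ^ p * (c₁ ^ p * |(F z).re| ^ p) := by
        rw [← Real.mul_rpow hc0 (by positivity), ← Real.mul_rpow hc₁0.le (abs_nonneg _),
          ← Real.mul_rpow hκ0.le (by positivity)]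
        refine Real.rpow_le_rpow (by positivity) ?_ hp0.le
        rw [← mul_assoc, ← mul_assoc]
        refine mul_le_mul_of_nonneg_right ?_ (abs_nonneg _)
        rw [hκ, one_div, inv_mul_eq_div, le_div_iff₀ (by linarith)]
        linarith
      have e5 : c ^ p * ‖vecC U z‖ ^ p ≤ c ^ p * (((1 + t) * |(F z).re|) ^ p +
          ((1 + 1 / t) * θ) ^ p + 2 * θ) := mul_le_mul_of_nonneg_left (by linarith) hcp
      rw [hWn, Real.mul_rpow hκ0.le (abs_nonneg _)]
      unfold V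
      simp only
      linarith
    rw [av_add (by fun_prop) (by fun_prop), av_add (by fun_prop) continuous_const, av_const,
      av_mul, av_mul] at key
    have h5 := mul_le_mul_of_nonneg_left hav hκp.le
    have h6 : 0 < κ ^ p * β := by positivity
    linarith

/-- Burkholder's constant `p* - 1` is best possible for differentially subordinate harmonic
functions, already on the unit disc with values in a Euclidean space. -/
theorem result :
    ∀ p : ℝ, 1 < p → ∀ c : ℝ, 0 ≤ c → c < max p (p / (p - 1)) - 1 →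
      ∃ (k : ℕ) (u v : ℂ → EuclideanSpace ℝ (Fin k)),
        InnerProductSpace.HarmonicOnNhd u (ball 0 1) ∧
        InnerProductSpace.HarmonicOnNhd v (ball 0 1) ∧
        (∀ z ∈ ball (0 : ℂ) 1, ‖fderiv ℝ v z 1‖ ^ 2 + ‖fderiv ℝ v z Complex.I‖ ^ 2 ≤
          ‖fderiv ℝ u z 1‖ ^ 2 + ‖fderiv ℝ u z Complex.I‖ ^ 2) ∧
        ‖v 0‖ ≤ ‖u 0‖ ∧ hnorm p (ball 0 1) 0 u < ⊤ ∧
        ENNReal.ofReal c * hnorm p (ball 0 1) 0 u < hnorm p (ball 0 1) 0 v := by
  intro p hp c hc0 hc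
  have hp0 : 0 < p := by linarith
  have hq : 0 < 1 / p := by positivity
  obtain ⟨k, U, W, hU, hW, hg, h0, hlt⟩ := core hp hc0 hc
  have hrp := Real.continuous_rpow_const hp0.le
  have hUc := vecC_cont hU
  have hWc := vecC_cont hW
  have hu : hnorm p (ball 0 1) 0 (vecC U) ≤
      ENNReal.ofReal (av fun z => ‖vecC U z‖ ^ p) ^ (1 / p) := by
    refine iSup_le fun D => iSup_le fun μ => iSup_le fun ⟨h1, _, h3, h4, h5, h6⟩ => ?_
    rw [lint_eq hUc hp0 h5 h6]
    refine ENNReal.rpow_le_rpow (ENNReal.ofReal_le_ofReal (Real.sSup_le ?_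
      (Real.circleAverage_nonneg_of_nonneg fun z _ => by positivity))) hq.le
    rintro _ ⟨w, w1, w2, rfl⟩
    refine le_of_forall_pos_le_add fun η hη => ?_
    obtain ⟨A, hA, -, hAω⟩ := approx (fun z => ‖vecC U z‖ ^ p) (by fun_prop) (half_pos hη)
    have hAc := hA.continuous
    have hd : Differentiable ℂ (fun z => A z + (η / 2 : ℝ)) := by fun_prop
    have e1 := max_principle h1 h3 hd w1 w2 (fun ξ hξ => majorant hU hp.le hd (fun z hz => by
      simp only [Complex.add_re, Complex.ofReal_re]; linarith [(abs_le.1 (hAω z hz)).2])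
      (mem_ball_zero_iff.1 (h5 hξ.1)).le) h4
    have e2 := av_mono (φ := fun z => (A z).re) (ψ := fun z => ‖vecC U z‖ ^ p + η / 2)
      (by fun_prop) (by fun_prop) fun z hz => by linarith [(abs_le.1 (hAω z hz)).1]
    rw [av_add (by fun_prop) continuous_const, av_const, av_re_entire hA] at e2
    simp only [Complex.add_re, Complex.ofReal_re] at e1
    linarith
  have hWp : Continuous fun z => ‖vecC W z‖ ^ p := by fun_prop
  obtain ⟨r, hr1, hr⟩ := (((((Real.Continuous.circleAverage hWp).tendsto 1).mono_left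
    (nhdsWithin_le_nhds (s := Iio 1))).eventually (lt_mem_nhds hlt)).and
      (Ioo_mem_nhdsLT zero_lt_one)).exists
  obtain ⟨μ, hμ⟩ := exists_measure hr.1
  have hcl : closure (ball (0 : ℂ) r) ⊆ ball 0 1 :=
    closure_ball_subset_closedBall.trans (closedBall_subset_ball hr.2)
  have ha : 0 ≤ av fun z => ‖vecC U z‖ ^ p :=
    Real.circleAverage_nonneg_of_nonneg fun z _ => by positivity
  refine ⟨k, vecC U, vecC W, fun z _ => vecC_harm hU z, fun z _ => vecC_harm hW z,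
    fun z hz => by rw [grad hU, grad hW]; exact hg z (mem_ball_zero_iff.1 hz).le, h0,
    hu.trans_lt (ENNReal.rpow_lt_top_of_nonneg hq.le ENNReal.ofReal_ne_top),
    lt_of_le_of_lt (mul_le_mul_right hu _) (lt_of_lt_of_le ?_ (le_iSup_of_le (ball 0 r)
      (le_iSup₂_of_le μ ⟨isOpen_ball, (convex_ball _ _).isConnected (nonempty_ball.2 hr.1),
        isBounded_ball, mem_ball_self hr.1, hcl, hμ⟩ le_rfl)))⟩
  rw [lint_eq hWc hp0 hcl hμ, perron_ball hr.1 hWp]
  refine lt_of_le_of_lt (le_of_eq ?_) (ENNReal.rpow_lt_rpow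
    ((ENNReal.ofReal_lt_ofReal_iff_of_nonneg (by positivity)).2 hr1) hq)
  rw [ENNReal.ofReal_mul (by positivity), ENNReal.mul_rpow_of_nonneg _ _ hq.le,
    ← ENNReal.ofReal_rpow_of_nonneg hc0 hp0.le, ← ENNReal.rpow_mul, mul_one_div_cancel hp0.ne',
    ENNReal.rpow_one]

end Pool.Agent.Results.MP_540347_an.HarmonicMeasure
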