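import Mathlib
import Pool.Agent.Lib.MP_540347_an.S3.Final

set_option autoImplicit false

namespace Pool.Agent.Results.MP_540347_an.Scalar

/-- Sharpness of `p* - 1` for real valued harmonic functions in every dimension `n ≥ 3`. -/
theorem result :
    ∀ n : ℕ, 3 ≤ n → ∀ p : ℝ, 1 < p → ∀ c : ℝ, 0 ≤ c → c < max p (p / (p - 1)) - 1 →
      ∃ (D : Set (EuclideanSpace ℝ (Fin n))) (u v : EuclideanSpace ℝ (Fin n) → ℝ),
        IsOpen D ∧ IsConnected D ∧ Bornology.IsBounded D ∧ (0 : EuclideanSpace ℝ (Fin n)) ∈ D ∧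
        InnerProductSpace.HarmonicOnNhd u D ∧ InnerProductSpace.HarmonicOnNhd v D ∧
        (∀ x ∈ D, ∑ i : Fin n, fderiv ℝ v x (EuclideanSpace.single i (1 : ℝ)) ^ 2 ≤
          ∑ i : Fin n, fderiv ℝ u x (EuclideanSpace.single i (1 : ℝ)) ^ 2) ∧
        |v 0| ≤ |u 0| ∧ (∃ M : ℝ, ∀ x ∈ D, |u x| ≤ M ∧ |v x| ≤ M) ∧
        ∃ h : EuclideanSpace ℝ (Fin n) → ℝ,
          InnerProductSpace.HarmonicOnNhd h D ∧ (∀ x ∈ D, |u x| ^ p ≤ h x) ∧
          ∃ ε : ℝ, 0 < ε ∧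
            ∀ g : EuclideanSpace ℝ (Fin n) → ℝ, InnerProductSpace.HarmonicOnNhd g D →
              (∀ x ∈ D, |v x| ^ p ≤ g x) → c ^ p * h 0 + ε ≤ g 0 :=
  Pool.Agent.Lib.MP_540347_an.S3.main3

end Pool.Agent.Results.MP_540347_an.Scalar
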